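import Pool.Agent.H592.TD.Stm
import Pool.Graph.R_pool_sql_team_seeded_f0cf7b00.H329R2.AD.G2

/-!
# TD10: from the boxes to the sorted balanced correlation
-/

set_option autoImplicit false

open Finset Filter Topology

namespace Pool.Agent.H592.TD

open Pool.Agent.H329R2.AD (dk ram Pr SS)

namespace L10

/-- the set counted by `srt` -/
def SN (y n : ℕ) : Finset (ℕ × ℕ) := (n.divisors ×ˢ n.divisors).filter
  (fun p : ℕ × ℕ => p.1 < p.2 ∧ y < p.1 * p.2 ∧ p.1 * p.2 ∣ n ∧ p.2 < n / (p.1 * p.2))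

theorem srt_eq (y n : ℕ) : srt y n = (SN y n).card := rfl

theorem mem_SN {y n a b c : ℕ} (hn : n = a * b * c) (ha : 1 ≤ a) (hab : a < b) (hbc : b < c)
    (hy : y < a * b) : (a, b) ∈ SN y n := by
  have hb : 1 ≤ b := by omega
  have hc : 1 ≤ c := by omega
  have hab0 : 0 < a * b := Nat.mul_pos ha hb
  have hn0 : n ≠ 0 := by
    rw [hn]
    exact (Nat.mul_pos hab0 hc).ne'
  have hq : n / (a * b) = c := by rw [hn]; exact Nat.mul_div_cancel_left c hab0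
  have hd : a * b ∣ n := ⟨c, hn⟩
  unfold SN
  rw [Finset.mem_filter, Finset.mem_product]
  refine ⟨⟨Nat.mem_divisors.2 ⟨(Dvd.intro b rfl).trans hd, hn0⟩,
    Nat.mem_divisors.2 ⟨(Dvd.intro_left a rfl).trans hd, hn0⟩⟩, hab, hy, hd, ?_⟩
  change b < n / (a * b)
  rw [hq]
  exact hbc

/-- all pairs of sorted balanced factorisations -/
noncomputable def BIG (h X : ℕ) : Finset (Σ _ : ℕ, (ℕ × ℕ) × (ℕ × ℕ)) :=
  (Ioc ⌊(X : ℝ) / (2 * Real.log X)⌋₊ X).sigma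
    fun N => SN (Nat.sqrt X) N ×ˢ SN (Nat.sqrt X) (N + h)

theorem card_BIG (h X : ℕ) : ((BIG h X).card : ℝ) = TT h X := by
  unfold BIG TT
  rw [Finset.card_sigma, Nat.cast_sum]
  refine Finset.sum_congr rfl fun N _ => ?_
  rw [Finset.card_product, Nat.cast_mul]
  rfl

theorem mem_In {X α β : ℝ} (hX : 0 ≤ X) {a : ℕ} :
    a ∈ In X α β ↔ X ^ α < a ∧ (a : ℝ) ≤ X ^ β := by
  unfold In
  rw [Finset.mem_Ioc, Nat.floor_lt (Real.rpow_nonneg hX _), Nat.le_floor_iff (Real.rpow_nonneg hX _)]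

/-- the box of the index `z` -/
def Q (n : ℕ) (X : ℝ) (z : Fin 4 → ℕ) (p : Σ _ : ℕ, (ℕ × ℕ) × (ℕ × ℕ)) : Prop :=
  p.2.1.1 ∈ In X ((z 0 : ℝ) / n) (((z 0 : ℝ) + 1) / n) ∧
  p.2.1.2 ∈ In X ((z 1 : ℝ) / n) (((z 1 : ℝ) + 1) / n) ∧
  p.2.2.1 ∈ In X ((z 2 : ℝ) / n) (((z 2 : ℝ) + 1) / n) ∧
  p.2.2.2 ∈ In X ((z 3 : ℝ) / n) (((z 3 : ℝ) + 1) / n)

theorem In_le {X : ℝ} (hX : 1 < X) {n k k' a : ℕ} (hn : 1 ≤ n)
    (h1 : a ∈ In X ((k : ℝ) / n) (((k : ℝ) + 1) / n))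
    (h2 : a ∈ In X ((k' : ℝ) / n) (((k' : ℝ) + 1) / n)) : k ≤ k' := by
  rw [mem_In (by linarith)] at h1 h2
  have h3 : X ^ ((k : ℝ) / n) < X ^ (((k' : ℝ) + 1) / n) := h1.1.trans_le h2.2
  rw [Real.rpow_lt_rpow_left_iff hX] at h3
  have hn0 : (0 : ℝ) < n := by exact_mod_cast hn
  rw [div_lt_div_iff_of_pos_right hn0] at h3
  have h4 : k < k' + 1 := by exact_mod_cast h3
  omega

theorem Q_disj {X : ℝ} (hX : 1 < X) {n : ℕ} (hn : 1 ≤ n) {z z' : Fin 4 → ℕ}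
    {p : Σ _ : ℕ, (ℕ × ℕ) × (ℕ × ℕ)} (h : Q n X z p) (h' : Q n X z' p) : z = z' := by
  obtain ⟨a0, a1, a2, a3⟩ := h
  obtain ⟨b0, b1, b2, b3⟩ := h'
  funext i
  fin_cases i
  · exact le_antisymm (In_le hX hn a0 b0) (In_le hX hn b0 a0)
  · exact le_antisymm (In_le hX hn a1 b1) (In_le hX hn b1 a1)
  · exact le_antisymm (In_le hX hn a2 b2) (In_le hX hn b2 a2)
  · exact le_antisymm (In_le hX hn a3 b3) (In_le hX hn b3 a3)

/-- the pairs in a box give sorted balanced factorisations -/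
theorem sorted {X : ℕ} (hX : 1 < (X : ℝ)) {α₁ α₂ β₁ β₂ : ℝ} (h0 : 0 ≤ α₁) (h1 : α₂ ≤ β₁)
    (h2 : 1 / 2 ≤ α₁ + β₁)
    (h3 : (X : ℝ) ^ (α₂ + 2 * β₂) ≤ (X : ℝ) / (2 * Real.log X)) {a b n : ℕ}
    (ha : a ∈ In X α₁ α₂) (hb : b ∈ In X β₁ β₂) (hd : a * b ∣ n)
    (hn : (X : ℝ) / (2 * Real.log X) < n) : (a, b) ∈ SN (Nat.sqrt X) n := by
  have hX0 : (0 : ℝ) < X := by linarith
  rw [mem_In hX0.le] at ha hb
  have ha1 : (1 : ℝ) < a := lt_of_le_of_lt (Real.one_le_rpow hX.le h0) ha.1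
  have ha1' : 1 ≤ a := by
    have : (1 : ℕ) < a := by exact_mod_cast ha1
    exact this.le
  have hab : (a : ℝ) < b :=
    ha.2.trans_lt (lt_of_le_of_lt (Real.rpow_le_rpow_of_exponent_le hX.le h1) hb.1)
  have hab' : a < b := by exact_mod_cast hab
  have hsq : (Nat.sqrt X : ℝ) < ((a * b : ℕ) : ℝ) := by
    calc (Nat.sqrt X : ℝ) ≤ √(X : ℝ) := Real.nat_sqrt_le_real_sqrt
      _ = (X : ℝ) ^ (1 / 2 : ℝ) := Real.sqrt_eq_rpow _
      _ ≤ (X : ℝ) ^ (α₁ + β₁) := Real.rpow_le_rpow_of_exponent_le hX.le h2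
      _ = (X : ℝ) ^ α₁ * (X : ℝ) ^ β₁ := Real.rpow_add hX0 _ _
      _ < (a : ℝ) * b := mul_lt_mul'' ha.1 hb.1 (Real.rpow_nonneg hX0.le _)
          (Real.rpow_nonneg hX0.le _)
      _ = ((a * b : ℕ) : ℝ) := by push_cast; ring
  have hsq' : Nat.sqrt X < a * b := by exact_mod_cast hsq
  obtain ⟨c, hc⟩ := hd
  refine mem_SN hc ha1' hab' ?_ hsq'
  have h4 : ((a * b : ℕ) : ℝ) * b < ((a * b : ℕ) : ℝ) * c := by
    calc ((a * b : ℕ) : ℝ) * b = (a : ℝ) * (b * b) := by push_cast; ring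
      _ ≤ (X : ℝ) ^ α₂ * ((X : ℝ) ^ β₂ * (X : ℝ) ^ β₂) := by
          have hb0 : (0 : ℝ) ≤ b := Nat.cast_nonneg b
          have ha0 : (0 : ℝ) ≤ a := Nat.cast_nonneg a
          exact mul_le_mul ha.2 (mul_le_mul hb.2 hb.2 hb0 (Real.rpow_nonneg hX0.le _))
            (mul_nonneg hb0 hb0) (Real.rpow_nonneg hX0.le _)
      _ = (X : ℝ) ^ (α₂ + 2 * β₂) := by
          rw [← Real.rpow_add hX0, ← Real.rpow_add hX0]; ring_nf
      _ ≤ (X : ℝ) / (2 * Real.log X) := h3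
      _ < n := hn
      _ = ((a * b : ℕ) : ℝ) * c := by rw [hc]; push_cast; ring
  have h5 : a * b * b < a * b * c := by exact_mod_cast h4
  exact Nat.lt_of_mul_lt_mul_left h5

/-- the set counted by `CNT` -/
noncomputable def CS (s : ℤ) (X α₁ α₂ β₁ β₂ γ₁ γ₂ δ₁ δ₂ : ℝ) :
    Finset (Σ _ : ℕ, Σ _ : ℕ, Σ _ : ℕ, Σ _ : ℕ, ℕ) :=
  (In X α₁ α₂).sigma fun a => (In X β₁ β₂).sigma fun b => (In X γ₁ γ₂).sigma fun u =>
    (In X δ₁ δ₂).sigma fun v => (Icc 1 ⌊X⌋₊).filter (fun c : ℕ =>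
      X / Real.log X < ((a * b * c : ℕ) : ℝ) ∧ ((a * b * c : ℕ) : ℝ) ≤ X ∧
        ((u * v : ℕ) : ℤ) ∣ (a : ℤ) * b * c + s)

theorem card_CS (s : ℤ) (X α₁ α₂ β₁ β₂ γ₁ γ₂ δ₁ δ₂ : ℝ) :
    (CS s X α₁ α₂ β₁ β₂ γ₁ γ₂ δ₁ δ₂).card = CNT s X α₁ α₂ β₁ β₂ γ₁ γ₂ δ₁ δ₂ := by
  unfold CS CNT cc
  simp only [Finset.card_sigma]

theorem mem_CS {s : ℤ} {X α₁ α₂ β₁ β₂ γ₁ γ₂ δ₁ δ₂ : ℝ}
    {p : Σ _ : ℕ, Σ _ : ℕ, Σ _ : ℕ, Σ _ : ℕ, ℕ} :
    p ∈ CS s X α₁ α₂ β₁ β₂ γ₁ γ₂ δ₁ δ₂ ↔ p.1 ∈ In X α₁ α₂ ∧ p.2.1 ∈ In X β₁ β₂ ∧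
      p.2.2.1 ∈ In X γ₁ γ₂ ∧ p.2.2.2.1 ∈ In X δ₁ δ₂ ∧ p.2.2.2.2 ∈ Icc 1 ⌊X⌋₊ ∧
      X / Real.log X < ((p.1 * p.2.1 * p.2.2.2.2 : ℕ) : ℝ) ∧
      ((p.1 * p.2.1 * p.2.2.2.2 : ℕ) : ℝ) ≤ X ∧
      ((p.2.2.1 * p.2.2.2.1 : ℕ) : ℤ) ∣ (p.1 : ℤ) * p.2.1 * p.2.2.2.2 + s := by
  unfold CS
  simp only [Finset.mem_sigma, Finset.mem_filter]

/-- `X` is large for the box `z` -/
structure Lg (n h X : ℕ) (z : Fin 4 → ℕ) : Prop where
  X1 : 1 < (X : ℝ)
  hh : (h : ℝ) ≤ (X : ℝ) / (2 * Real.log X)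
  p1 : (X : ℝ) ^ (((z 0 : ℝ) + 1) / n + 2 * (((z 1 : ℝ) + 1) / n)) ≤ (X : ℝ) / (2 * Real.log X)
  p2 : (X : ℝ) ^ (((z 2 : ℝ) + 1) / n + 2 * (((z 3 : ℝ) + 1) / n)) ≤ (X : ℝ) / (2 * Real.log X)

/-- the inequalities of `Bal` at the corners -/
structure Cr (n : ℕ) (z : Fin 4 → ℕ) : Prop where
  a0 : 0 < (z 0 : ℝ) / n
  a1 : ((z 0 : ℝ) + 1) / n < (z 1 : ℝ) / n
  a2 : 1 / 2 < (z 0 : ℝ) / n + (z 1 : ℝ) / n
  a3 : ((z 0 : ℝ) + 1) / n + 2 * (((z 1 : ℝ) + 1) / n) < 1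
  b0 : 0 < (z 2 : ℝ) / n
  b1 : ((z 2 : ℝ) + 1) / n < (z 3 : ℝ) / n
  b2 : 1 / 2 < (z 2 : ℝ) / n + (z 3 : ℝ) / n
  b3 : ((z 2 : ℝ) + 1) / n + 2 * (((z 3 : ℝ) + 1) / n) < 1

theorem cr_of {n : ℕ} (hn : 1 ≤ n) {z : Fin 4 → ℕ} (h : cell n z ⊆ Bal) : Cr n z := by
  have hn0 : (0 : ℝ) < n := by exact_mod_cast hn
  have hle : ∀ i, (z i : ℝ) / n ≤ ((z i : ℝ) + 1) / n := fun i => by gcongr; linarith
  have hlow : (fun i => (z i : ℝ) / n) ∈ cell n z := fun i => ⟨le_rfl, hle i⟩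
  have hup : (fun i => ((z i : ℝ) + 1) / n) ∈ cell n z := fun i => ⟨hle i, le_rfl⟩
  have hm1 : (fun i : Fin 4 => if i = 0 then ((z i : ℝ) + 1) / n else (z i : ℝ) / n) ∈ cell n z := by
    intro i
    by_cases hi : i = 0
    · simp only [if_pos hi]; exact ⟨hle i, le_rfl⟩
    · simp only [if_neg hi]; exact ⟨le_rfl, hle i⟩
  have hm2 : (fun i : Fin 4 => if i = 2 then ((z i : ℝ) + 1) / n else (z i : ℝ) / n) ∈ cell n z := by
    intro i
    by_cases hi : i = 2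
    · simp only [if_pos hi]; exact ⟨hle i, le_rfl⟩
    · simp only [if_neg hi]; exact ⟨le_rfl, hle i⟩
  have l := h hlow
  have u := h hup
  have m1 := h hm1
  have m2 := h hm2
  exact
    { a0 := l.1
      a1 := by simpa using m1.2.1
      a2 := l.2.2.2.1
      a3 := u.2.2.1
      b0 := l.2.2.2.2.1
      b1 := by simpa using m2.2.2.2.2.2.1
      b2 := l.2.2.2.2.2.2.2
      b3 := u.2.2.2.2.2.2.1 }

/-- first kind -/
theorem kind1 {n h X : ℕ} {z : Fin 4 → ℕ} (hc : Cr n z) (hL : Lg n h X z) :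
    CNT (h : ℤ) X ((z 0 : ℝ) / n) (((z 0 : ℝ) + 1) / n) ((z 1 : ℝ) / n) (((z 1 : ℝ) + 1) / n)
      ((z 2 : ℝ) / n) (((z 2 : ℝ) + 1) / n) ((z 3 : ℝ) / n) (((z 3 : ℝ) + 1) / n) ≤
    (open Classical in ((BIG h X).filter (Q n X z)).card) := by
  classical
  rw [← card_CS]
  have hlog : 0 < Real.log X := Real.log_pos hL.X1
  have hX0 : (0 : ℝ) < X := by linarith [hL.X1]
  have hhalf : (X : ℝ) / (2 * Real.log X) ≤ (X : ℝ) / Real.log X :=
    div_le_div_of_nonneg_left hX0.le hlog (by linarith)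
  refine Finset.card_le_card_of_injOn
    (fun p => ⟨p.1 * p.2.1 * p.2.2.2.2, ((p.1, p.2.1), (p.2.2.1, p.2.2.2.1))⟩) ?_ ?_
  · rintro ⟨a, b, u, v, c⟩ hp
    rw [Finset.mem_coe, mem_CS] at hp
    obtain ⟨ha, hb, hu, hv, hcc, h1, h2, h3⟩ := hp
    dsimp only at ha hb hu hv hcc h1 h2 h3
    have h4 : (X : ℝ) / (2 * Real.log X) < ((a * b * c : ℕ) : ℝ) := hhalf.trans_lt h1
    have h5 : u * v ∣ a * b * c + h := by
      have : ((u * v : ℕ) : ℤ) ∣ ((a * b * c + h : ℕ) : ℤ) := by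
        push_cast
        push_cast at h3
        exact h3
      exact Int.natCast_dvd_natCast.1 this
    have h6 : (X : ℝ) / (2 * Real.log X) < ((a * b * c + h : ℕ) : ℝ) := by
      push_cast at h4 ⊢
      have : (0 : ℝ) ≤ h := Nat.cast_nonneg h
      linarith
    rw [Finset.mem_coe, Finset.mem_filter]
    refine ⟨?_, ha, hb, hu, hv⟩
    unfold BIG
    rw [Finset.mem_sigma, Finset.mem_Ioc, Finset.mem_product]
    refine ⟨⟨(Nat.floor_lt (by positivity)).2 h4, by exact_mod_cast h2⟩, ?_, ?_⟩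
    · exact sorted hL.X1 hc.a0.le hc.a1.le hc.a2.le hL.p1 ha hb (Dvd.intro c rfl) h4
    · exact sorted hL.X1 hc.b0.le hc.b1.le hc.b2.le hL.p2 hu hv h5 h6
  · rintro ⟨a, b, u, v, c⟩ hp ⟨a', b', u', v', c'⟩ hp' he
    rw [Finset.mem_coe, mem_CS] at hp hp'
    simp only [Sigma.mk.injEq, heq_eq_eq, Prod.mk.injEq] at he
    obtain ⟨e1, ⟨rfl, rfl⟩, rfl, rfl⟩ := he
    have ha := (mem_In hX0.le).1 hp.1
    have hb := (mem_In hX0.le).1 hp.2.1
    dsimp only at ha hb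
    have ha0 : 0 < a := by
      have := (Real.rpow_pos_of_pos hX0 _).trans ha.1
      exact_mod_cast this
    have hb0 : 0 < b := by
      have := (Real.rpow_pos_of_pos hX0 _).trans hb.1
      exact_mod_cast this
    have e2 : c = c' := Nat.eq_of_mul_eq_mul_left (Nat.mul_pos ha0 hb0) e1
    rw [e2]

/-- second kind -/
theorem kind2 {n h X : ℕ} {z : Fin 4 → ℕ} (hc : Cr n z) (hL : Lg n h X z) :
    CNT (-(h : ℤ)) X ((z 2 : ℝ) / n) (((z 2 : ℝ) + 1) / n) ((z 3 : ℝ) / n) (((z 3 : ℝ) + 1) / n)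
      ((z 0 : ℝ) / n) (((z 0 : ℝ) + 1) / n) ((z 1 : ℝ) / n) (((z 1 : ℝ) + 1) / n) ≤
    (open Classical in ((BIG h X).filter (Q n X z)).card) := by
  classical
  rw [← card_CS]
  have hlog : 0 < Real.log X := Real.log_pos hL.X1
  have hX0 : (0 : ℝ) < X := by linarith [hL.X1]
  have hhalf : (X : ℝ) / Real.log X = 2 * ((X : ℝ) / (2 * Real.log X)) := by
    field_simp
  have hXl : 0 < (X : ℝ) / (2 * Real.log X) := by positivity
  refine Finset.card_le_card_of_injOn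
    (fun p => ⟨p.1 * p.2.1 * p.2.2.2.2 - h, ((p.2.2.1, p.2.2.2.1), (p.1, p.2.1))⟩) ?_ ?_
  · rintro ⟨a, b, u, v, c⟩ hp
    rw [Finset.mem_coe, mem_CS] at hp
    obtain ⟨ha, hb, hu, hv, hcc, h1, h2, h3⟩ := hp
    dsimp only at ha hb hu hv hcc h1 h2 h3
    have hle : h ≤ a * b * c := by
      have : (h : ℝ) ≤ ((a * b * c : ℕ) : ℝ) := by
        have := hL.hh
        rw [hhalf] at h1
        linarith
      exact_mod_cast this
    obtain ⟨N, hN⟩ := Nat.exists_eq_add_of_le hle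
    have hNs : a * b * c - h = N := by omega
    have hNa : a * b * c = N + h := by omega
    have hNr : ((a * b * c : ℕ) : ℝ) = (N : ℝ) + h := by
      rw [hNa]; push_cast; ring
    have h4 : (X : ℝ) / (2 * Real.log X) < (N : ℝ) := by
      have := hL.hh
      rw [hhalf, hNr] at h1
      linarith
    have h5 : u * v ∣ N := by
      have e : (a : ℤ) * b * c + -(h : ℤ) = (N : ℤ) := by
        have : ((a * b * c : ℕ) : ℤ) = (N : ℤ) + h := by rw [hNa]; push_cast; ring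
        push_cast at this
        linarith
      rw [e] at h3
      exact Int.natCast_dvd_natCast.1 h3
    have h6 : (X : ℝ) / (2 * Real.log X) < ((N + h : ℕ) : ℝ) := by
      push_cast
      have : (0 : ℝ) ≤ h := Nat.cast_nonneg h
      linarith
    rw [Finset.mem_coe, Finset.mem_filter]
    refine ⟨?_, hu, hv, ha, hb⟩
    unfold BIG
    rw [Finset.mem_sigma, Finset.mem_Ioc, Finset.mem_product]
    dsimp only
    rw [hNs]
    refine ⟨⟨(Nat.floor_lt (by positivity)).2 h4, ?_⟩, ?_, ?_⟩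
    · have : ((a * b * c : ℕ) : ℝ) ≤ (X : ℝ) := h2
      have : a * b * c ≤ X := by exact_mod_cast this
      omega
    · exact sorted hL.X1 hc.a0.le hc.a1.le hc.a2.le hL.p1 hu hv h5 h4
    · exact sorted hL.X1 hc.b0.le hc.b1.le hc.b2.le hL.p2 ha hb (hNa ▸ Dvd.intro c rfl) h6
  · rintro ⟨a, b, u, v, c⟩ hp ⟨a', b', u', v', c'⟩ hp' he
    rw [Finset.mem_coe, mem_CS] at hp hp'
    simp only [Sigma.mk.injEq, heq_eq_eq, Prod.mk.injEq] at he
    obtain ⟨e1, ⟨rfl, rfl⟩, rfl, rfl⟩ := he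
    have hle : ∀ x : ℕ, (X : ℝ) / Real.log X < (x : ℝ) → h ≤ x := by
      intro x hx
      have : (h : ℝ) ≤ (x : ℝ) := by
        have := hL.hh
        rw [hhalf] at hx
        linarith
      exact_mod_cast this
    have l1 := hle _ hp.2.2.2.2.2.1
    have l2 := hle _ hp'.2.2.2.2.2.1
    dsimp only at l1 l2
    have e1' : a * b * c = a * b * c' := by omega
    have ha := (mem_In hX0.le).1 hp.1
    have hb := (mem_In hX0.le).1 hp.2.1
    dsimp only at ha hb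
    have ha0 : 0 < a := by
      have := (Real.rpow_pos_of_pos hX0 _).trans ha.1
      exact_mod_cast this
    have hb0 : 0 < b := by
      have := (Real.rpow_pos_of_pos hX0 _).trans hb.1
      exact_mod_cast this
    have e2 : c = c' := Nat.eq_of_mul_eq_mul_left (Nat.mul_pos ha0 hb0) e1'
    rw [e2]

/-- the boxes together -/
theorem sum_boxes {n h X : ℕ} (hn : 1 ≤ n) (hX : 1 < (X : ℝ)) (K : Finset (Fin 4 → ℕ)) :
    (open Classical in ∑ z ∈ K, ((BIG h X).filter (Q n X z)).card) ≤ (BIG h X).card := by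
  classical
  rw [← Finset.card_biUnion]
  · exact Finset.card_le_card (Finset.biUnion_subset.2 fun z _ => Finset.filter_subset _ _)
  · intro z _ z' _ hne
    change Disjoint _ _
    rw [Finset.disjoint_left]
    intro p hp hp'
    exact hne (Q_disj hX hn (Finset.mem_filter.1 hp).2 (Finset.mem_filter.1 hp').2)

theorem ev_pow {θ : ℝ} (hθ : θ < 1) :
    ∀ᶠ X : ℝ in atTop, X ^ θ ≤ X / (2 * Real.log X) := by
  have h1 := (isLittleO_log_rpow_atTop (sub_pos.2 hθ)).bound (by norm_num : (0 : ℝ) < 1 / 2)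
  filter_upwards [h1, eventually_gt_atTop 1] with X hX hX1
  have hX0 : 0 < X := by linarith
  have hlog : 0 < Real.log X := Real.log_pos hX1
  rw [Real.norm_of_nonneg hlog.le, Real.norm_of_nonneg (Real.rpow_nonneg hX0.le _)] at hX
  rw [le_div_iff₀ (by positivity)]
  calc X ^ θ * (2 * Real.log X) ≤ X ^ θ * (2 * (1 / 2 * X ^ (1 - θ))) := by gcongr
    _ = X ^ θ * X ^ (1 - θ) := by ring
    _ = X := by
        rw [← Real.rpow_add hX0]
        norm_num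

theorem ev_lg (n h : ℕ) {z : Fin 4 → ℕ} (hc : Cr n z) : ∀ᶠ X : ℕ in atTop, Lg n h X z := by
  have ht : Tendsto (fun X : ℕ => (X : ℝ)) atTop atTop := tendsto_natCast_atTop_atTop
  have h1 := ht.eventually (ev_pow hc.a3)
  have h2 := ht.eventually (ev_pow hc.b3)
  have h3 := ht.eventually (ev_pow (by norm_num : (1 / 2 : ℝ) < 1))
  have h4 := ht.eventually (eventually_gt_atTop (1 : ℝ))
  have h5 := ht.eventually (eventually_ge_atTop ((h : ℝ) ^ 2))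
  filter_upwards [h1, h2, h3, h4, h5] with X x1 x2 x3 x4 x5
  refine ⟨x4, le_trans ?_ x3, x1, x2⟩
  rw [← Real.sqrt_eq_rpow]
  exact Real.le_sqrt_of_sq_le x5

theorem isOpen_Bal : IsOpen Bal := by
  unfold Bal
  have c : ∀ i : Fin 4, Continuous fun z : Fin 4 → ℝ => z i := fun i => continuous_apply i
  refine (isOpen_lt continuous_const (c 0)).inter ((isOpen_lt (c 0) (c 1)).inter
    ((isOpen_lt ((c 0).add (continuous_const.mul (c 1))) continuous_const).inter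
    ((isOpen_lt continuous_const ((c 0).add (c 1))).inter
    ((isOpen_lt continuous_const (c 2)).inter ((isOpen_lt (c 2) (c 3)).inter
    ((isOpen_lt ((c 2).add (continuous_const.mul (c 3))) continuous_const).inter
    (isOpen_lt continuous_const ((c 2).add (c 3)))))))))

theorem isOpen_RA : IsOpen RA := by
  unfold RA
  have c : ∀ i : Fin 4, Continuous fun z : Fin 4 → ℝ => z i := fun i => continuous_apply i
  exact isOpen_Bal.inter (isOpen_lt ((c 0).add (continuous_const.mul ((c 2).add (c 3))))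
    continuous_const)

theorem isOpen_RB : IsOpen RB := by
  unfold RB
  have c : ∀ i : Fin 4, Continuous fun z : Fin 4 → ℝ => z i := fun i => continuous_apply i
  exact isOpen_Bal.inter (isOpen_lt ((c 2).add (continuous_const.mul ((c 0).add (c 1))))
    continuous_const)

theorem Bal_sub : Bal ⊆ Set.Icc 0 1 := by
  rintro z ⟨h0, h1, h2, -, h3, h4, h5, -⟩
  constructor
  · intro i
    fin_cases i
    · exact h0.le
    · exact (h0.trans h1).le
    · exact h3.le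
    · exact (h3.trans h4).le
  · intro i
    fin_cases i
    · change z 0 ≤ 1
      linarith
    · change z 1 ≤ 1
      linarith
    · change z 2 ≤ 1
      linarith
    · change z 3 ≤ 1
      linarith

theorem Bal_pos {z : Fin 4 → ℝ} (h : z ∈ Bal) (i : Fin 4) : 0 < z i := by
  obtain ⟨h0, h1, h2, -, h3, h4, h5, -⟩ := h
  fin_cases i
  · exact h0
  · exact h0.trans h1
  · exact h3
  · exact h3.trans h4

end L10

open L10 in
theorem s10 : S8 → S9 → S10 := by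
  classical
  intro h8 h9 h hh v hv
  have hσ : 0 < SS 3 h := Pool.Agent.H329R2.AD.SS_pos 2 h (by norm_num) hh
  have hbd : Bornology.IsBounded Bal := (Metric.isBounded_Icc (0 : Fin 4 → ℝ) 1).subset Bal_sub
  obtain ⟨n, K, hn, hK, hKv⟩ := h9 RA RB isOpen_RA isOpen_RB (hbd.subset fun z hz => hz.1)
    (hbd.subset fun z hz => hz.1) (by
      rintro t (ht | ht) i
      · exact Bal_pos ht.1 i
      · exact Bal_pos ht.1 i) (v / SS 3 h) ((div_lt_iff₀ hσ).2 hv)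
  have hn0 : (0 : ℝ) < n := by exact_mod_cast hn
  rw [div_lt_iff₀ hσ] at hKv
  have hcr : ∀ z ∈ K, Cr n z := by
    intro z hz
    rcases hK z hz with h1 | h1
    · exact cr_of hn fun t ht => (h1 ht).1
    · exact cr_of hn fun t ht => (h1 ht).1
  have ht : Tendsto (fun X : ℕ => (X : ℝ)) atTop atTop := tendsto_natCast_atTop_atTop
  rcases K.eq_empty_or_nonempty with hK0 | hK0
  · rw [hK0] at hKv
    simp only [Finset.card_empty, Nat.cast_zero, zero_div, zero_mul] at hKv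
    filter_upwards [ht.eventually (eventually_gt_atTop (1 : ℝ))] with X hX
    have h1 : 0 ≤ TT h X := by
      unfold TT
      exact Finset.sum_nonneg fun N _ => by positivity
    have hlog : 0 < Real.log X := Real.log_pos hX
    have h2 : v * ((X : ℝ) * Real.log X ^ 4) ≤ 0 :=
      mul_nonpos_of_nonpos_of_nonneg hKv.le (by positivity)
    exact h2.trans h1
  have hKc : (0 : ℝ) < K.card := by exact_mod_cast hK0.card_pos
  obtain ⟨v', hv'⟩ : ∃ v' : ℝ, v' = v / K.card := ⟨_, rfl⟩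
  have hvv : (K.card : ℝ) * v' = v := by rw [hv']; field_simp
  have hv1 : v' < 1 / (n : ℝ) ^ 4 * SS 3 h := by
    rw [hv', div_lt_iff₀ hKc]
    calc v < (K.card : ℝ) / (n : ℝ) ^ 4 * SS 3 h := hKv
      _ = 1 / (n : ℝ) ^ 4 * SS 3 h * K.card := by ring
  have hdiff : ∀ k : ℕ, ((k : ℝ) + 1) / n - (k : ℝ) / n = 1 / n := fun k => by
    rw [← sub_div]; congr 1; ring
  have hlt : ∀ k : ℕ, (k : ℝ) / n < ((k : ℝ) + 1) / n := fun k => by
    have := hdiff k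
    have : 0 < 1 / (n : ℝ) := by positivity
    linarith
  have hvol : (1 : ℝ) / n * (1 / n) * (1 / n * (1 / n)) = 1 / (n : ℝ) ^ 4 := by
    field_simp
  have hbox : ∀ z ∈ K, ∀ᶠ X : ℕ in atTop, v' * ((X : ℝ) * Real.log X ^ 4) ≤
      (((BIG h X).filter (Q n X z)).card : ℝ) := by
    intro z hz
    have hc := hcr z hz
    have hle : ∀ i, (z i : ℝ) / n ≤ ((z i : ℝ) + 1) / n := fun i => (hlt (z i)).le
    have hup : (fun i => ((z i : ℝ) + 1) / n) ∈ cell n z := fun i => ⟨hle i, le_rfl⟩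
    have p0 := hlt (z 0)
    have p1 := hlt (z 1)
    have p2 := hlt (z 2)
    have p3 := hlt (z 3)
    have q1 := hc.a0
    have q2 := hc.a1
    have q3 := hc.a2
    have q4 := hc.a3
    have q5 := hc.b0
    have q6 := hc.b1
    have q7 := hc.b2
    have q8 := hc.b3
    rcases hK z hz with h1 | h1
    · have hu := (h1 hup).2
      dsimp only at hu
      have e := h8 (h : ℤ) (by exact_mod_cast (by omega : h ≠ 0)) ((z 0 : ℝ) / n)
        (((z 0 : ℝ) + 1) / n) ((z 1 : ℝ) / n) (((z 1 : ℝ) + 1) / n)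
        ((z 2 : ℝ) / n) (((z 2 : ℝ) + 1) / n) ((z 3 : ℝ) / n) (((z 3 : ℝ) + 1) / n)
        q1 p0 (by linarith) p1 q5 p2 (by linarith) p3 (by linarith) hu (by linarith) v' (by
          rw [hdiff, hdiff, hdiff, hdiff, hvol]
          simpa using hv1)
      filter_upwards [ht.eventually e, ev_lg n h hc] with X x1 x2
      refine x1.trans ?_
      exact_mod_cast kind1 hc x2
    · have hu := (h1 hup).2
      dsimp only at hu
      have e := h8 (-(h : ℤ)) (by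
          have : (h : ℤ) ≠ 0 := by exact_mod_cast (by omega : h ≠ 0)
          omega) ((z 2 : ℝ) / n)
        (((z 2 : ℝ) + 1) / n) ((z 3 : ℝ) / n) (((z 3 : ℝ) + 1) / n)
        ((z 0 : ℝ) / n) (((z 0 : ℝ) + 1) / n) ((z 1 : ℝ) / n) (((z 1 : ℝ) + 1) / n)
        q5 p2 (by linarith) p3 q1 p0 (by linarith) p1 (by linarith) hu (by linarith) v' (by
          rw [hdiff, hdiff, hdiff, hdiff, hvol]
          simpa using hv1)
      filter_upwards [ht.eventually e, ev_lg n h hc] with X x1 x2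
      refine x1.trans ?_
      exact_mod_cast kind2 hc x2
  filter_upwards [(Filter.eventually_all_finset K).2 hbox,
    ht.eventually (eventually_gt_atTop (1 : ℝ))] with X x1 x2
  rw [← card_BIG]
  calc v * ((X : ℝ) * Real.log X ^ 4) = ∑ z ∈ K, v' * ((X : ℝ) * Real.log X ^ 4) := by
        rw [Finset.sum_const, nsmul_eq_mul]
        conv_lhs => rw [← hvv]
        ring
    _ ≤ ∑ z ∈ K, (((BIG h X).filter (Q n X z)).card : ℝ) := Finset.sum_le_sum x1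
    _ = ((∑ z ∈ K, ((BIG h X).filter (Q n X z)).card : ℕ) : ℝ) := by rw [Nat.cast_sum]
    _ ≤ ((BIG h X).card : ℝ) := by exact_mod_cast sum_boxes hn x2 K

end Pool.Agent.H592.TD
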